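import Mathlib
import Pool.Agent.H294DM.Main2

/-!
# Dynamical Mordell-Lang for a positive proportion of all endomorphisms of `P^N`

Definitions:
* `Box n d H` (`Pool.Agent.H927R2.RD`): the `n`-tuples of forms of degree `d` in `n` variables over
  `ℤ` with coefficients of absolute value at most `H`;
* `DMLAt F α` (`Pool.Agent.H927R2.RD`): for every set `S` of homogeneous complex polynomials the set
  of `k` such that all `g ∈ S` vanish at the `k`-th iterate of `α` is a finite union of arithmetic
  progressions;
* `Good F` (below): `F` has no common zero in `ℂ^(N+1)` except `0`, so it defines an endomorphism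
  of `P^N`, and `DMLAt F α` holds for every point `α` of `P^N(ℂ)`.
-/

set_option autoImplicit false

open MvPolynomial Pool.Agent.H927R2.RD

namespace Pool.Agent.Results.MP_b15c9e_ag.PositiveProportion

/-- The integral system `F` of `N + 1` forms in `N + 1` variables has no common zero in `ℂ^(N+1)`
except `0`, i.e. it defines an endomorphism of `P^N`, and this endomorphism has the dynamical
Mordell-Lang property for all complex points and all closed subvarieties. -/
def Good {N : ℕ} (F : Fin (N + 1) → MvPolynomial (Fin (N + 1)) ℤ) : Prop :=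
  (∀ x : Fin (N + 1) → ℂ, (∀ i, eval x (map (Int.castRingHom ℂ) (F i)) = 0) → x = 0) ∧
    ∀ α : Fin (N + 1) → ℂ, α ≠ 0 → DMLAt F α

/-- **Dynamical Mordell-Lang for a positive proportion of all endomorphisms of `P^N`.**
Let `N` be any dimension, `d ≥ 2` any degree. In every residue class `A` modulo `M`, and in every
real cell (`F / H` at distance at most `ε` from a given real system `B` with coefficients in
`[-1, 1]`), a positive proportion of the integral systems of `N + 1` forms of degree `d` with
coefficients at most `H` define endomorphisms of `P^N` with the full dynamical Mordell-Lang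
property. -/
theorem result (N d : ℕ) (hd : 2 ≤ d) (M : ℕ) (hM : 0 < M)
    (A : Fin (N + 1) → MvPolynomial (Fin (N + 1)) ℤ) (hA : ∀ i, (A i).IsHomogeneous d)
    (B : Fin (N + 1) → MvPolynomial (Fin (N + 1)) ℝ) (hB : ∀ i, (B i).IsHomogeneous d)
    (hB1 : ∀ i μ, |coeff μ (B i)| ≤ 1) (ε : ℝ) (hε : 0 < ε) :
    ∃ δ : ℝ, 0 < δ ∧ ∃ H₀ : ℕ, ∀ H : ℕ, H₀ ≤ H →
      δ * ((Box (N + 1) d H).ncard : ℝ) ≤
        (({F | F ∈ Box (N + 1) d H ∧
          (∀ i μ, (M : ℤ) ∣ coeff μ (F i) - coeff μ (A i)) ∧
          (∀ i μ, |((coeff μ (F i) : ℤ) : ℝ) - H * coeff μ (B i)| ≤ ε * H) ∧ Good F} :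
          Set (Fin (N + 1) → MvPolynomial (Fin (N + 1)) ℤ)).ncard : ℝ) :=
  H294DM.main2 N d hd M hM A hA B hB hB1 ε hε

end Pool.Agent.Results.MP_b15c9e_ag.PositiveProportion
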